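import Pool.Agent.W381.PG.GaussD

set_option autoImplicit false
set_option linter.overlappingInstances false
set_option linter.unusedSectionVars false

open FF IntermediateField Pool.Agent.W619.PQ Pool.Agent.W619.PL Pool.Agent.W619.TW
  Pool.Agent.W603.LV

namespace Pool.Agent.W381.PG

section

variable {k K : Type*} [Field k] [Field K] [Algebra k K]

theorem linIndep_pow {t : K} (ht : Transcendental k t) (N : ℕ) :
    LinearIndependent k (fun j : Fin N => t ^ (j : ℕ)) := by
  have h1 := (Polynomial.basisMonomials k).linearIndependent.map'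
    (Polynomial.aeval (R := k) t).toLinearMap
    (LinearMap.ker_eq_bot.2 (transcendental_iff_injective.1 ht))
  have h2 := h1.comp (fun j : Fin N => (j : ℕ)) Fin.val_injective
  have h3 : (fun j : Fin N => t ^ (j : ℕ)) =
      ((Polynomial.aeval (R := k) t).toLinearMap ∘ (Polynomial.basisMonomials k)) ∘
        (fun j : Fin N => (j : ℕ)) := by
    funext j
    show t ^ (j : ℕ) = Polynomial.aeval (R := k) t (Polynomial.basisMonomials k (j : ℕ))
    rw [Polynomial.coe_basisMonomials, Polynomial.aeval_monomial, map_one, one_mul]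
  rw [h3]
  exact h2

theorem aeval_cons {e : ℕ} (t : K) (y : Fin e → K) (p : MvPolynomial (Fin (e + 1)) k) :
    MvPolynomial.aeval (Fin.cons t y : Fin (e + 1) → K) p =
      Polynomial.eval₂ ((MvPolynomial.aeval (R := k) y : MvPolynomial (Fin e) k →ₐ[k] K) :
        MvPolynomial (Fin e) k →+* K) t (MvPolynomial.finSuccEquiv k e p) := by
  induction p using MvPolynomial.induction_on with
  | C a =>
    rw [MvPolynomial.finSuccEquiv_apply, MvPolynomial.eval₂Hom_C, MvPolynomial.aeval_C]
    show _ = Polynomial.eval₂ _ t (Polynomial.C (MvPolynomial.C a))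
    rw [Polynomial.eval₂_C]
    show _ = MvPolynomial.aeval (R := k) y (MvPolynomial.C a)
    rw [MvPolynomial.aeval_C]
  | add p q hp hq => rw [map_add, map_add, Polynomial.eval₂_add, hp, hq]
  | mul_X p i hp =>
    rw [map_mul, map_mul, Polynomial.eval₂_mul, hp, MvPolynomial.aeval_X]
    congr 1
    refine Fin.cases ?_ (fun j => ?_) i
    · rw [MvPolynomial.finSuccEquiv_X_zero, Polynomial.eval₂_X, Fin.cons_zero]
    · rw [MvPolynomial.finSuccEquiv_X_succ, Polynomial.eval₂_C, Fin.cons_succ]
      show _ = MvPolynomial.aeval (R := k) y (MvPolynomial.X j)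
      rw [MvPolynomial.aeval_X]

end

section

variable {k L : Type*} [Field k] [Field L] [Algebra k L] [CharZero k] [IsAlgClosed k]
  {M F : IntermediateField k L} {n m : ℤ} {z w : L}

theorem UU_div (h : Cur M F) (u : Place k M) (d : ℕ) (hd : Algebra.trdeg k M = d)
    (hu : IsDivisorial u d) : IsDivisorial (UU h u) (d + 1) := by
  have hff := h.ff
  obtain ⟨t, ht⟩ := IsFF.exists_transcendental (k := k) (K := F)
  cases d with
  | zero =>
    exfalso
    obtain ⟨s, hs0, hs⟩ := u.surj
    have h1 : Transcendental k s := u.transcendental_of_ord_ne (by omega)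
    have h2 : Algebra.IsAlgebraic k M := by
      rw [← _root_.trdeg_eq_zero_iff, hd, Nat.cast_zero]
    exact h1 (h2.isAlgebraic s)
  | succ e =>
    obtain ⟨y, hy⟩ := hu
    have hy' : ∀ p : MvPolynomial (Fin e) k, p ≠ 0 →
      MvPolynomial.aeval (R := k) (fun i : Fin e => y i) p ≠ 0 ∧
        u.ord (MvPolynomial.aeval (R := k) (fun i : Fin e => y i) p) = 0 := hy
    set y0 : Fin e → M := fun i => y i with hy0
    set y1 : Fin e → L := fun i => (y0 i : L) with hy1
    have hcoe : ∀ q : MvPolynomial (Fin e) k, MvPolynomial.aeval (R := k) y1 q =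
        ((MvPolynomial.aeval (R := k) y0 q : M) : L) := by
      intro q
      exact MvPolynomial.aeval_algebraMap_apply L y0 q
    refine ⟨(Fin.cons (t : L) y1 : Fin (e + 1) → L), fun p hp => ?_⟩
    have hp' : MvPolynomial.finSuccEquiv k e p ≠ 0 := by
      intro h0
      apply hp
      have := congrArg (MvPolynomial.finSuccEquiv k e).symm h0
      rwa [AlgEquiv.symm_apply_apply, map_zero] at this
    have e1 : MvPolynomial.aeval (R := k) (Fin.cons (t : L) y1 : Fin (e + 1) → L) p =
        ∑ j : Fin ((MvPolynomial.finSuccEquiv k e p).natDegree + 1),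
          (((fun j : Fin ((MvPolynomial.finSuccEquiv k e p).natDegree + 1) => t ^ (j : ℕ)) j : F)
            : L) * ((MvPolynomial.aeval (R := k) y0
              ((MvPolynomial.finSuccEquiv k e p).coeff (j : ℕ)) : M) : L) := by
      rw [aeval_cons, Polynomial.eval₂_eq_sum_range, Finset.sum_range]
      refine Finset.sum_congr rfl fun j _ => ?_
      rw [← hcoe, mul_comm]
      push_cast
      rfl
    have hge : Ge (UU h u) 0
        (MvPolynomial.aeval (R := k) (Fin.cons (t : L) y1 : Fin (e + 1) → L) p) := by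
      rw [e1]
      refine Ge.sum _ _ fun j _ => ?_
      have h1 : Ge (UU h u) 0 ((MvPolynomial.aeval (R := k) y0
              ((MvPolynomial.finSuccEquiv k e p).coeff (j : ℕ)) : M) : L) := by
        by_cases h2 : (MvPolynomial.finSuccEquiv k e p).coeff (j : ℕ) = 0
        · left
          rw [h2, map_zero]
          rfl
        · right
          rw [UU_M]
          exact (hy' _ h2).2.ge
      have h3 : Ge (UU h u) 0 (((fun j : Fin ((MvPolynomial.finSuccEquiv k e p).natDegree + 1) =>
          t ^ (j : ℕ)) j : F) : L) := Or.inr (UU_F h u _).ge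
      have h4 := h3.mul h1
      rwa [zero_add] at h4
    have hnge : ¬ Ge (UU h u) 1
        (MvPolynomial.aeval (R := k) (Fin.cons (t : L) y1 : Fin (e + 1) → L) p) := by
      intro hc
      rw [e1] at hc
      have h1 := UU_fam h u _ _ _ 1 (linIndep_pow ht _) hc
        (Fin.last (MvPolynomial.finSuccEquiv k e p).natDegree)
      have h2 : (MvPolynomial.finSuccEquiv k e p).coeff
          ((Fin.last (MvPolynomial.finSuccEquiv k e p).natDegree : Fin _) : ℕ) ≠ 0 := by
        rw [Fin.val_last]
        show (MvPolynomial.finSuccEquiv k e p).leadingCoeff ≠ 0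
        exact Polynomial.leadingCoeff_ne_zero.2 hp'
      have h3 := hy' _ h2
      rcases h1 with h1 | h1
      · exact h3.1 h1
      · have h4 := h3.2
        omega
    refine ⟨fun h0 => hnge (Or.inl h0), ?_⟩
    rcases hge with h1 | h1
    · exact absurd (Or.inl h1) hnge
    · by_contra h2
      exact hnge (Or.inr (by
        have h3 : (UU h u).ord (MvPolynomial.aeval (R := k)
          (Fin.cons (t : L) y1 : Fin (e + 1) → L) p) ≠ 0 := h2
        omega))

theorem GG_der (u : Place k M) (D : Derivation k L L)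
    (hM : ∀ μ : M, u.Reg μ → ∃ μ' : M, D (μ : L) = (μ' : L) ∧ u.Reg μ')
    (hF : ∀ β : F, ∃ β' : F, D (β : L) = (β' : L)) (hz : z ∈ GG F u 0) : D z ∈ GG F u 0 := by
  refine GG_ind (p := fun z => D z ∈ GG F u 0) ?_ ?_ ?_ hz
  · rw [map_zero]; exact zero_mem _
  · intro x y hx hy
    rw [map_add]; exact add_mem hx hy
  · intro β μ hμ
    obtain ⟨μ', h1, h2⟩ := hM μ hμ
    obtain ⟨β', h3⟩ := hF β
    rw [D.leibniz, h1, h3, smul_eq_mul, smul_eq_mul]
    refine add_mem ?_ ?_
    · rw [mul_comm]
      exact GG_mul_F β (GG_M h2)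
    · exact GG_mul_F β' (GG_M hμ)

theorem UU_pres (h : Cur M F) (u : Place k M) (D : Derivation k L L)
    (hM : ∀ μ : M, u.Reg μ → ∃ μ' : M, D (μ : L) = (μ' : L) ∧ u.Reg μ')
    (hF : ∀ β : F, ∃ β' : F, D (β : L) = (β' : L)) : Pres (UU h u) D := by
  intro z hz
  by_cases h0 : z = 0
  · rw [h0, map_zero]; exact Or.inl rfl
  obtain ⟨n, hn⟩ := Or'.exists h u h0
  have hn0 : 0 ≤ n := by
    have h1 := hz.resolve_left h0
    have h2 : (UU h u).ord z = n := od_eq h hn
    rwa [h2] at h1
  obtain ⟨a, b, p, q, ha, hb, rfl, rfl⟩ := hn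
  obtain ⟨t, ht0, ht⟩ := u.surj
  have htn : t ^ (-q) ≠ 0 := zpow_ne_zero _ ht0
  have htL : ((t ^ (-q) : M) : L) ≠ 0 := fun hc => htn (Subtype.ext hc)
  have h1 := ha.scale htn
  have h2 := hb.scale htn
  rw [u.ord_zpow, ht, mul_one] at h1 h2
  rw [add_neg_cancel] at h2
  have e1 : a / b = (a * ((t ^ (-q) : M) : L)) / (b * ((t ^ (-q) : M) : L)) :=
    (mul_div_mul_right _ _ htL).symm
  set A := a * ((t ^ (-q) : M) : L) with hA
  set B := b * ((t ^ (-q) : M) : L) with hB
  rw [e1]
  have hA0 : A ∈ GG F u 0 := GG_mono (by omega) h1.1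
  have hB0 : B ∈ GG F u 0 := h2.1
  have hDA := GG_der u D hM hF hA0
  have hDB := GG_der u D hM hF hB0
  have hnum : B * D A - A * D B ∈ GG F u 0 := by
    have h3 := GG_mul hB0 hDA
    have h4 := GG_mul hA0 hDB
    rw [add_zero] at h3 h4
    exact sub_mem h3 h4
  have hnum' := GG_UU h u hnum
  have hBord : (UU h u).ord B = 0 := od_eq h (h2.or h)
  rw [D.leibniz_div, smul_eq_mul, smul_eq_mul, smul_eq_mul]
  have hinv : Ge (UU h u) 0 (B⁻¹ ^ 2) := by
    right
    rw [(UU h u).ord_pow, (UU h u).ord_inv, hBord]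
    simp
  have h5 := hinv.mul hnum'
  rw [add_zero] at h5
  exact h5

end

universe u v

theorem main : Pool.Agent.W619.Y.S_GAUSS.{u, v} := by
  intro k L _ _ _ _ _ M F _ d hd hL hsup u
  have h := cur_of_trdeg (M := M) (F := F) d hd hL hsup
  exact ⟨UU h u, UU_M h u, UU_F h u, fun r β μ c hβ hc => UU_fam h u r β μ c hβ hc,
    UU_div h u d hd, fun D hM hF => UU_pres h u D hM hF⟩

end Pool.Agent.W381.PG
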