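import Pool.Agent.W619.Y.Stm4

set_option autoImplicit false
set_option linter.overlappingInstances false
set_option linter.unusedSectionVars false

open FF IntermediateField Pool.Agent.W619.PQ Pool.Agent.W619.PL Pool.Agent.W619.TW
  Pool.Agent.W603.LV

namespace Pool.Agent.W381.PG

section

universe u v

variable {k : Type v} {L : Type u} [Field k] [Field L] [Algebra k L]
  {M F : IntermediateField k L}

theorem cur_of_trdeg [hF : IsFF k F] (d : ℕ) (h1 : Algebra.trdeg k M = d)
    (h2 : Algebra.trdeg k L = (d + 1 : ℕ)) (h3 : M ⊔ F = ⊤) : Cur M F := by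
  refine ⟨hF, fun x hx halg => ?_, h3⟩
  have hle : (⊤ : IntermediateField k L) ≤ (algebraicClosure M L).restrictScalars k := by
    rw [← h3, sup_le_iff]
    constructor
    · intro z hz
      exact (algebraicClosure M L).algebraMap_mem ⟨z, hz⟩
    · intro z hz
      have hxA : (x : L) ∈ (algebraicClosure M L).restrictScalars k := by
        rw [mem_restrictScalars, mem_algebraicClosure_iff]
        exact halg
      have h4 := alg_of_mem F hx ((algebraicClosure M L).restrictScalars k) hxA ⟨z, hz⟩
      have h5 : IsAlgebraic (algebraicClosure M L) z := h4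
      rw [mem_restrictScalars, mem_algebraicClosure_iff]
      exact h5.restrictScalars M
  have h4 : Algebra.IsAlgebraic M L := ⟨fun z => by
    have h := hle (by trivial : z ∈ (⊤ : IntermediateField k L))
    rwa [mem_restrictScalars, mem_algebraicClosure_iff] at h⟩
  have h5 := _root_.trdeg_add_eq k M (A := L)
  rw [_root_.trdeg_eq_zero_iff.2 h4, add_zero, h1, h2] at h5
  have h6 : d = d + 1 := by exact_mod_cast h5
  omega

end

section

variable {k L : Type*} [Field k] [Field L] [Algebra k L] [CharZero k] [IsAlgClosed k]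
  {M F : IntermediateField k L}

theorem linDisj (h : Cur M F) {ι : Type*} (m : ι → M) (hm : LinearIndependent k m) :
    LinearIndependent F (fun i => (m i : L)) := by
  have hff := h.ff
  obtain ⟨q, -⟩ := exists_place (k := k) (K := F)
  obtain ⟨w, hw⟩ := h.exists_ext q
  rw [linearIndependent_iff']
  intro s g hg i hi
  by_contra hne
  have h1 := res' w q 1 one_pos (fun β => by rw [hw]; simp) s m hm g (q.ord (g i) + 1) (by
    left
    rw [← hg]
    refine Finset.sum_congr rfl fun i _ => ?_
    rw [Algebra.smul_def, mul_comm]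
    rfl) i hi
  have := h1.resolve_left hne
  omega

theorem linDisj' (h : Cur M F) {ι : Type*} (β : ι → F) (hβ : LinearIndependent k β) :
    LinearIndependent M (fun i => (β i : L)) := by
  have h1 : M.LinearDisjoint F :=
    IntermediateField.LinearDisjoint.of_basis_left (Module.Basis.ofVectorSpace k M)
      (linDisj h _ (Module.Basis.ofVectorSpace k M).linearIndependent)
  exact h1.linearIndependent_right hβ

end

section

variable {k M : Type*} [Field k] [Field M] [Algebra k M] [IsAlgClosed k]

/-- The elements of positive order. -/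
def pI (u : Place k M) (T : Finset M) (hT : ∀ x ∈ Algebra.adjoin k (T : Set M), Ge u 0 x) :
    Ideal (Algebra.adjoin k (T : Set M)) where
  carrier := {x | Ge u 1 (x : M)}
  add_mem' := fun {a b} ha hb => Ge.add ha hb
  zero_mem' := Ge.zero
  smul_mem' := fun c x hx => by
    have h1 := (hT c c.2).mul hx
    rw [zero_add] at h1
    exact h1

theorem pI_prime (u : Place k M) (T : Finset M)
    (hT : ∀ x ∈ Algebra.adjoin k (T : Set M), Ge u 0 x) : (pI u T hT).IsPrime := by
  constructor
  · intro h
    have h1 : (1 : Algebra.adjoin k (T : Set M)) ∈ pI u T hT := by rw [h]; trivial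
    have h2 : Ge u 1 (1 : M) := h1
    rcases h2 with h2 | h2
    · exact one_ne_zero h2
    · rw [u.ord_one] at h2
      omega
  · intro x y hxy
    have h1 : Ge u 1 ((x : M) * (y : M)) := hxy
    rcases h1 with h1 | h1
    · rcases mul_eq_zero.1 h1 with h2 | h2
      · left; exact Or.inl h2
      · right; exact Or.inl h2
    · by_cases hx : (x : M) = 0
      · left; exact Or.inl hx
      by_cases hy : (y : M) = 0
      · right; exact Or.inl hy
      rw [u.ord_mul hx hy] at h1
      have h2 := (hT x x.2).resolve_left hx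
      have h3 := (hT y y.2).resolve_left hy
      by_cases h4 : 1 ≤ u.ord (x : M)
      · left; exact Or.inr h4
      · right
        refine Or.inr ?_
        omega

theorem spec (u : Place k M) (T : Finset M)
    (hT : ∀ x ∈ Algebra.adjoin k (T : Set M), Ge u 0 x)
    (a : Algebra.adjoin k (T : Set M)) (ha : ¬ Ge u 1 (a : M)) :
    ∃ φ : Algebra.adjoin k (T : Set M) →ₐ[k] k,
      (∀ x : Algebra.adjoin k (T : Set M), Ge u 1 (x : M) → φ x = 0) ∧ φ a ≠ 0 := by
  have hp := pI_prime u T hT
  have hft : Algebra.FiniteType k (Algebra.adjoin k (T : Set M)) :=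
    (Subalgebra.fg_iff_finiteType _).1 (Subalgebra.fg_adjoin_finset T)
  have hjac : IsJacobsonRing (Algebra.adjoin k (T : Set M)) := isJacobsonRing_of_finiteType (A := k)
  have h1 : (pI u T hT).jacobson = pI u T hT := hjac.out' _ hp.isRadical
  have h2 : a ∉ (pI u T hT).jacobson := by rw [h1]; exact ha
  unfold Ideal.jacobson at h2
  rw [Ideal.mem_sInf] at h2
  push Not at h2
  obtain ⟨m, ⟨hm1, hm2⟩, hm3⟩ := h2
  let := Ideal.Quotient.field m
  have hfin : Module.Finite k (Algebra.adjoin k (T : Set M) ⧸ m) :=
    finite_of_finite_type_of_isJacobsonRing k _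
  have hb : Function.Bijective (algebraMap k (Algebra.adjoin k (T : Set M) ⧸ m)) :=
    IsAlgClosed.algebraMap_bijective_of_isIntegral
  let e : k ≃ₐ[k] (Algebra.adjoin k (T : Set M) ⧸ m) :=
    AlgEquiv.ofBijective (Algebra.ofId k _) hb
  refine ⟨(e.symm : (Algebra.adjoin k (T : Set M) ⧸ m) →ₐ[k] k).comp (Ideal.Quotient.mkₐ k m),
    fun x hx => ?_, fun h => ?_⟩
  · have h3 : x ∈ m := hm1 hx
    show e.symm (Ideal.Quotient.mk m x) = 0
    rw [Ideal.Quotient.eq_zero_iff_mem.2 h3, map_zero]
  · have h3 : e.symm (Ideal.Quotient.mk m a) = 0 := h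
    have h4 : (Ideal.Quotient.mk m a) = 0 := by
      have := congrArg e h3
      rwa [AlgEquiv.apply_symm_apply, map_zero] at this
    exact hm3 (Ideal.Quotient.eq_zero_iff_mem.1 h4)

end

end Pool.Agent.W381.PG
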