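import Pool.Agent.W381.PG.GaussA

set_option autoImplicit false
set_option linter.overlappingInstances false
set_option linter.unusedSectionVars false

open FF IntermediateField Pool.Agent.W619.PQ Pool.Agent.W619.PL Pool.Agent.W619.TW
  Pool.Agent.W603.LV

namespace Pool.Agent.W381.PG

section

variable {k L : Type*} [Field k] [Field L] [Algebra k L] {M F : IntermediateField k L}

/-- The elements of order at least `n`. -/
def GG (F : IntermediateField k L) (u : Place k M) (n : ℤ) : Submodule F L :=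
  Submodule.span F ((fun μ : M => (μ : L)) '' {μ | Ge u n μ})

variable {u : Place k M} {n m : ℤ} {z w : L}

theorem GG_M {μ : M} (h : Ge u n μ) : (μ : L) ∈ GG F u n :=
  Submodule.subset_span ⟨μ, h, rfl⟩

theorem GG_ind {p : L → Prop} (h0 : p 0) (hadd : ∀ x y, p x → p y → p (x + y))
    (hs : ∀ (β : F) (μ : M), Ge u n μ → p ((β : L) * (μ : L))) (hz : z ∈ GG F u n) : p z := by
  unfold GG at hz
  induction hz using Submodule.closure_induction with
  | zero => exact h0
  | add x y _ _ hx hy => exact hadd x y hx hy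
  | smul_mem r x h =>
    obtain ⟨μ, hμ, rfl⟩ := h
    exact hs r μ hμ

theorem GG_mul_M {μ : M} (h : Ge u m μ) (hz : z ∈ GG F u n) : z * (μ : L) ∈ GG F u (n + m) := by
  refine GG_ind (p := fun z => z * (μ : L) ∈ GG F u (n + m)) ?_ ?_ ?_ hz
  · rw [zero_mul]; exact zero_mem _
  · intro x y hx hy
    rw [add_mul]; exact add_mem hx hy
  · intro β ν hν
    have h1 : ((ν * μ : M) : L) ∈ GG F u (n + m) := GG_M (hν.mul h)
    have h2 := Submodule.smul_mem _ β h1
    have h3 : (β : L) * (ν : L) * (μ : L) = β • ((ν * μ : M) : L) := by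
      rw [Algebra.smul_def]
      push_cast
      rw [mul_assoc]
      rfl
    rw [h3]
    exact h2

theorem GG_mul_F (β : F) (hz : z ∈ GG F u n) : z * (β : L) ∈ GG F u n := by
  have h2 := Submodule.smul_mem _ β hz
  rw [Algebra.smul_def, mul_comm] at h2
  exact h2

theorem GG_mul (hz : z ∈ GG F u n) (hw : w ∈ GG F u m) : z * w ∈ GG F u (n + m) := by
  refine GG_ind (p := fun w => z * w ∈ GG F u (n + m)) ?_ ?_ ?_ hw
  · rw [mul_zero]; exact zero_mem _
  · intro x y hx hy
    rw [mul_add]; exact add_mem hx hy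
  · intro β μ hμ
    have h1 := GG_mul_M hμ (GG_mul_F β hz)
    rw [mul_assoc] at h1
    exact h1

theorem GG_mono (h : m ≤ n) (hz : z ∈ GG F u n) : z ∈ GG F u m := by
  refine GG_ind (p := fun z => z ∈ GG F u m) (zero_mem _) (fun x y hx hy => add_mem hx hy) ?_ hz
  intro β μ hμ
  have h1 : (μ : L) ∈ GG F u m := GG_M (hμ.mono h)
  have h2 := Submodule.smul_mem _ β h1
  rw [Algebra.smul_def] at h2
  exact h2

theorem GG_F (β : F) : (β : L) ∈ GG F u 0 := by
  have h1 : ((1 : M) : L) ∈ GG F u 0 := GG_M Ge.one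
  have h2 := GG_mul_F β h1
  rwa [OneMemClass.coe_one, one_mul] at h2

theorem GG_RR (hz : z ∈ GG F u n) : z ∈ RR M F := by
  refine GG_ind (p := fun z => z ∈ RR M F) (zero_mem _) (fun x y hx hy => add_mem hx hy) ?_ hz
  intro β μ _
  exact mul_mem (RR.right β.2) (RR.left μ.2)

theorem RR_GG (hz : z ∈ RR M F) : ∃ n, z ∈ GG F u n := by
  have h := RR.mem_span hz
  clear hz
  induction h using Submodule.closure_induction with
  | zero => exact ⟨0, zero_mem _⟩
  | add x y _ _ hx hy =>
    obtain ⟨n, hn⟩ := hx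
    obtain ⟨m, hm⟩ := hy
    exact ⟨min n m, add_mem (GG_mono (min_le_left _ _) hn) (GG_mono (min_le_right _ _) hm)⟩
  | smul_mem r x h =>
    refine ⟨u.ord ⟨x, h⟩, ?_⟩
    exact Submodule.smul_mem _ r (GG_M (μ := ⟨x, h⟩) (Or.inr le_rfl))

theorem mul_expand {ι : Type*} (b : Module.Basis ι k F) (β : F) (μ : M) :
    (β : L) * (μ : L) = Finsupp.linearCombination M (fun i => (b i : L))
      ((b.repr β).mapRange (fun c => c • μ) (zero_smul _ _)) := by
  rw [Finsupp.linearCombination_apply, Finsupp.sum_mapRange_index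
    (h := fun i (a : M) => a • (b i : L)) (fun i => zero_smul M (b i : L))]
  have h1 : (β : L) = (b.repr β).sum fun i c => c • (b i : L) := by
    conv_lhs => rw [← b.linearCombination_repr β, Finsupp.linearCombination_apply]
    rw [Finsupp.sum, Finsupp.sum, AddSubmonoidClass.coe_finsetSum]
    rfl
  rw [h1, Finsupp.sum, Finsupp.sum, Finset.sum_mul]
  refine Finset.sum_congr rfl fun i _ => ?_
  rw [Algebra.smul_def, Algebra.smul_def (b.repr β i • μ), Algebra.smul_def]
  have h2 : algebraMap M L (algebraMap k M (b.repr β i) * μ) =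
      algebraMap k L (b.repr β i) * (μ : L) := by
    rw [map_mul, ← IsScalarTower.algebraMap_apply]
    rfl
  rw [h2]
  ring

/-- Expansion in a basis. -/
theorem GG_expand {ι : Type*} (b : Module.Basis ι k F) (hz : z ∈ GG F u n) :
    ∃ f : ι →₀ M, (∀ i, Ge u n (f i)) ∧
      z = Finsupp.linearCombination M (fun i => (b i : L)) f := by
  refine GG_ind (p := fun z => ∃ f : ι →₀ M, (∀ i, Ge u n (f i)) ∧
      z = Finsupp.linearCombination M (fun i => (b i : L)) f) ?_ ?_ ?_ hz
  · exact ⟨0, fun i => Ge.zero, by rw [map_zero]⟩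
  · rintro x y ⟨f, hf, rfl⟩ ⟨g, hg, rfl⟩
    exact ⟨f + g, fun i => (hf i).add (hg i), by rw [map_add]⟩
  · intro β μ hμ
    refine ⟨(b.repr β).mapRange (fun c => c • μ) (zero_smul _ _), fun i => ?_,
      mul_expand b β μ⟩
    rw [Finsupp.mapRange_apply, Algebra.smul_def]
    have h1 := (Ge.const (P := u) (b.repr β i)).mul hμ
    rwa [zero_add] at h1

end

section

variable {k L : Type*} [Field k] [Field L] [Algebra k L] [CharZero k] [IsAlgClosed k]
  {M F : IntermediateField k L} {u : Place k M} {n m : ℤ} {z w : L}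

theorem GG_coef (h : Cur M F) {ι : Type*} (b : Module.Basis ι k F) (f : ι →₀ M)
    (hf : Finsupp.linearCombination M (fun i => (b i : L)) f ∈ GG F u n) (i : ι) :
    Ge u n (f i) := by
  obtain ⟨g, hg, e⟩ := GG_expand b hf
  have h1 : Function.Injective (Finsupp.linearCombination M (fun i => (b i : L))) :=
    linDisj' h b b.linearIndependent
  rw [h1 e]
  exact hg i

theorem GG_fam (h : Cur M F) {r : ℕ} (β : Fin r → F) (μ : Fin r → M)
    (hβ : LinearIndependent k β) (hz : ∑ i, (β i : L) * (μ i : L) ∈ GG F u n) (i : Fin r) :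
    Ge u n (μ i) := by
  classical
  set b := Module.Basis.extend (hβ.linearIndepOn_id) with hb
  have hmem : ∀ i, β i ∈ hβ.linearIndepOn_id.extend (Set.subset_univ (Set.range β)) := fun i =>
    hβ.linearIndepOn_id.subset_extend _ ⟨i, rfl⟩
  have hbi : ∀ i, b ⟨β i, hmem i⟩ = β i := fun i => Module.Basis.extend_apply_self _ _
  set f : (hβ.linearIndepOn_id.extend (Set.subset_univ (Set.range β))) →₀ M :=
    ∑ i, Finsupp.single ⟨β i, hmem i⟩ (μ i) with hfdef
  have hf : Finsupp.linearCombination M (fun i => (b i : L)) f =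
      ∑ i, (β i : L) * (μ i : L) := by
    rw [hfdef, map_sum]
    refine Finset.sum_congr rfl fun i _ => ?_
    rw [Finsupp.linearCombination_single, hbi, Algebra.smul_def, mul_comm]
    rfl
  rw [← hf] at hz
  have h1 := GG_coef h b f hz ⟨β i, hmem i⟩
  have h2 : f ⟨β i, hmem i⟩ = μ i := by
    rw [hfdef, Finsupp.finsetSum_apply, Finset.sum_eq_single i]
    · rw [Finsupp.single_eq_same]
    · intro j _ hj
      rw [Finsupp.single_apply, if_neg]
      intro e
      exact hj (hβ.injective (Subtype.mk.inj e))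
    · intro h; exact absurd (Finset.mem_univ i) h
  rwa [h2] at h1

end

end Pool.Agent.W381.PG
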